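import Pool.Agent.N162.CW.Stm
import Pool.Agent.N966.CV.A3

/-!
# CW/IND: points on an irreducible plane curve which impose independent conditions
-/

set_option autoImplicit false

open MvPolynomial

namespace Pool.Agent.N279.CW

open Pool.Agent.N162.CV Pool.Agent.N966.CV

open Classical in
/-- independent coordinate functionals on a subspace -/
theorem coords {Ω ι : Type} [Field Ω] (S : Finset ι) (V : Submodule Ω (S → Ω)) (r : ℕ)
    (hr : r ≤ Module.finrank Ω V) : ∃ Q ⊆ S, Q.card = r ∧ ∀ lam : ι → Ω,
      (∀ f ∈ V, ∑ i : S, (if (i : ι) ∈ Q then lam i else 0) * f i = 0) → ∀ i ∈ Q, lam i = 0 := by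
  let v : S → Module.Dual Ω V := fun i => (LinearMap.proj i).comp V.subtype
  have hspan : Submodule.span Ω (Set.range v) = ⊤ := by
    rw [eq_top_iff]
    intro φ _
    obtain ⟨ψ, hψ⟩ := φ.exists_extend
    have h1 : φ = ∑ i : S, ψ (Pi.single i 1) • v i := by
      rw [← hψ]
      apply LinearMap.ext
      intro x
      rw [LinearMap.sum_apply]
      have h2 : (x : S → Ω) = ∑ i : S, (x : S → Ω) i • (Pi.single i (1 : Ω) : S → Ω) := by
        exact pi_eq_sum_univ' _
      rw [LinearMap.comp_apply, Submodule.subtype_apply]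
      conv_lhs => rw [h2]
      rw [map_sum]
      refine Finset.sum_congr rfl fun i _ => ?_
      rw [map_smul, LinearMap.smul_apply, smul_eq_mul, smul_eq_mul, mul_comm]
      rfl
    rw [h1]
    exact Submodule.sum_mem _ fun i _ =>
      Submodule.smul_mem _ _ (Submodule.subset_span ⟨i, rfl⟩)
  obtain ⟨κ, a, ha, hsp, hli⟩ := exists_linearIndependent' Ω v
  have : Finite κ := Finite.of_injective a ha
  have := Fintype.ofFinite κ
  have hcard : Fintype.card κ = Module.finrank Ω V := by
    rw [← finrank_span_eq_card hli, hsp, hspan, finrank_top, Subspace.dual_finrank_eq]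
  obtain ⟨T, hT⟩ : ∃ T : Finset κ, T.card = r := by
    obtain ⟨T, -, hT⟩ := Finset.exists_subset_card_eq (s := (Finset.univ : Finset κ)) (n := r)
      (by rw [Finset.card_univ, hcard]; exact hr)
    exact ⟨T, hT⟩
  have hinj : Function.Injective (fun x : κ => ((a x : S) : ι)) :=
    Subtype.val_injective.comp ha
  refine ⟨T.image fun x => ((a x : S) : ι), ?_, ?_, ?_⟩
  · intro i hi
    obtain ⟨x, -, rfl⟩ := Finset.mem_image.1 hi
    exact (a x).2
  · rw [Finset.card_image_of_injective _ hinj, hT]
  · intro lam hlam i hi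
    obtain ⟨x0, hx0, rfl⟩ := Finset.mem_image.1 hi
    have hmem : ∀ x : κ, ((a x : S) : ι) ∈ T.image (fun x => ((a x : S) : ι)) ↔ x ∈ T := by
      intro x
      rw [Finset.mem_image]
      constructor
      · rintro ⟨y, hy, hyx⟩
        rwa [← hinj hyx]
      · intro hx
        exact ⟨x, hx, rfl⟩
    have h0 : ∑ x : κ, (if x ∈ T then lam (a x) else 0) • (v ∘ a) x = 0 := by
      apply LinearMap.ext
      intro f
      rw [LinearMap.sum_apply, LinearMap.zero_apply]
      have h1 := hlam f.1 f.2
      have h2 : ∑ i : S, (if (i : ι) ∈ T.image (fun x => ((a x : S) : ι)) then lam i else 0) *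
          f.1 i = ∑ x : κ, (if x ∈ T then lam (a x) else 0) * f.1 (a x) := by
        have h3 : ∑ x : κ, (if x ∈ T then lam (a x) else 0) * f.1 (a x) =
            ∑ i ∈ Finset.univ.image a,
              (if (i : ι) ∈ T.image (fun x => ((a x : S) : ι)) then lam i else 0) * f.1 i := by
          rw [Finset.sum_image fun x _ y _ h => ha h]
          refine Finset.sum_congr rfl fun x _ => ?_
          simp only [hmem]
        rw [h3]
        symm
        apply Finset.sum_subset (Finset.subset_univ _)
        intro i _ hi'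
        rw [if_neg, zero_mul]
        intro hmi
        apply hi'
        obtain ⟨x, hx, hxi⟩ := Finset.mem_image.1 hmi
        exact Finset.mem_image.2 ⟨x, Finset.mem_univ _, Subtype.ext hxi⟩
      exact h2.symm.trans h1
    have h4 := Fintype.linearIndependent_iff.1 hli _ h0 x0
    rwa [if_pos hx0] at h4

theorem ind_ (hd : StDIM) (hb : StBEZ) : Pool.Agent.N162.CW.StIND := by
  classical
  intro Ω _ _ ι S p k G hinj hirr hG hgk hcard
  have hG0 : G ≠ 0 := hirr.ne_zero
  have key : ∀ P : MvPolynomial (Fin 2) Ω, P.totalDegree ≤ k →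
      (∀ i ∈ S, eval (p i) P = 0) → G ∣ P := by
    intro P hP h0
    by_contra hnd
    have hP0 : P ≠ 0 := by
      rintro rfl
      exact hnd (dvd_zero G)
    have hrp : IsRelPrime G P := (hirr.isRelPrime_iff_not_dvd).2 hnd
    have h1 := hb Ω G P hG0 hP0 hrp (S.image p) (by
      intro q hq
      obtain ⟨i, hi, rfl⟩ := Finset.mem_image.1 hq
      exact ⟨hG i hi, h0 i hi⟩)
    rw [Finset.card_image_of_injOn hinj] at h1
    have h2 := Nat.mul_le_mul_left G.totalDegree hP
    omega
  have h1 := rank_ev hd S p k G hG0 hgk key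
  obtain ⟨j, hj⟩ : ∃ j, k = G.totalDegree + j := ⟨k - G.totalDegree, by omega⟩
  generalize hg : G.totalDegree = g at *
  subst hj
  have e2 : g + j - g = j := by omega
  rw [e2] at h1
  obtain ⟨e, he⟩ : ∃ e, g * (g + 3) = 2 * e := by
    have : Even (g * (g + 3)) := by
      rcases Nat.even_or_odd g with h | h
      · exact h.mul_right _
      · exact (h.add_odd (by decide)).mul_left _
    obtain ⟨e, he⟩ := this
    exact ⟨e, by omega⟩
  have hr : e + g * j ≤ Module.finrank Ω (LinearMap.range (ev S p (g + j))) := by nlinarith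
  obtain ⟨Q, hQS, hQc, hQ⟩ := coords S (LinearMap.range (ev S p (g + j))) (e + g * j) hr
  refine ⟨Q, hQS, ?_, ?_⟩
  · rw [hQc]
    nlinarith
  · intro lam hlam
    apply hQ lam
    rintro _ ⟨P, rfl⟩
    have hPk := (mem_restrictTotalDegree (Fin 2) _ (P : MvPolynomial (Fin 2) Ω)).1 P.2
    have h3 := hlam (P : MvPolynomial (Fin 2) Ω) hPk
    have h4 : ∑ i : S, (if (i : ι) ∈ Q then lam i else 0) * ev S p (g + j) P i =
        ∑ i ∈ S, (if i ∈ Q then lam i else 0) * eval (p i) (P : MvPolynomial (Fin 2) Ω) := by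
      rw [← Finset.sum_coe_sort S]
      rfl
    rw [h4, ← Finset.sum_filter_add_sum_filter_not S (fun i => i ∈ Q)]
    have h5 : ∑ i ∈ S.filter (fun i => ¬ i ∈ Q), (if i ∈ Q then lam i else 0) *
        eval (p i) (P : MvPolynomial (Fin 2) Ω) = 0 := by
      apply Finset.sum_eq_zero
      intro i hi
      rw [if_neg (Finset.mem_filter.1 hi).2, zero_mul]
    have h6 : S.filter (fun i => i ∈ Q) = Q := by
      ext i
      rw [Finset.mem_filter]
      exact ⟨fun h => h.2, fun h => ⟨hQS h, h⟩⟩
    rw [h5, add_zero, h6]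
    refine Eq.trans (Finset.sum_congr rfl fun i hi => ?_) h3
    rw [if_pos hi]

end Pool.Agent.N279.CW
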